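import Pool.Agent.Helper43.AX.St

/-!
# Project AX, module ID: `K₀` is an ideal
-/

set_option autoImplicit false

namespace Pool.Agent.Helper37.AX

open Pool.Agent.Helper43.AX Pool.Agent.Helper43.GD

theorem hID : StID := by
  intro p q G _ a b t l L _ x E σ hC
  obtain ⟨hrel, hrd⟩ := hC
  obtain ⟨v, hv⟩ : ∃ v : G, v = a * b * a := ⟨_, rfl⟩
  obtain ⟨N, hN⟩ : ∃ N : ℕ, N = q ^ p := ⟨_, rfl⟩
  have vt : v⁻¹ * t * v = (t ^ N)⁻¹ := by
    rw [hv, hN]
    exact hrel.vt
  have lv : l * v = v * l := by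
    rw [hv]
    calc l * (a * b * a) = (l * a) * b * a := by group
      _ = a * (l * b) * a := by rw [hrel.la]; group
      _ = a * b * (l * a) := by rw [hrel.lb]; group
      _ = a * b * a * l := by rw [hrel.la]; group
  have tP : t ∈ P t l E := Subgroup.subset_closure (Or.inr (Or.inl rfl))
  have lP : l ∈ P t l E := Subgroup.subset_closure (Or.inr (Or.inr rfl))
  have hK : ∀ c, InK a b t l E c ↔ v⁻¹ * E c * v ∈ P t l E := by
    intro c
    rw [hv]
    exact Iff.rfl
  have E0 : E 0 = 1 := by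
    have h := hrd.add 0 0
    rw [add_zero] at h
    exact (mul_eq_left.1 h.symm)
  have Eneg : ∀ c, E (-c) = (E c)⁻¹ := by
    intro c
    have h := hrd.add (-c) c
    rw [neg_add_cancel, E0] at h
    exact eq_inv_of_mul_eq_one_left h.symm
  -- additive subgroup
  let S : AddSubgroup L :=
    { carrier := {c | v⁻¹ * E c * v ∈ P t l E}
      zero_mem' := by
        change v⁻¹ * E 0 * v ∈ P t l E
        rw [E0, mul_one, inv_mul_cancel]
        exact Subgroup.one_mem _
      add_mem' := by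
        intro c d hc hd
        change v⁻¹ * E (c + d) * v ∈ P t l E
        have h : v⁻¹ * E (c + d) * v = (v⁻¹ * E c * v) * (v⁻¹ * E d * v) := by
          rw [hrd.add]
          group
        rw [h]
        exact Subgroup.mul_mem _ hc hd
      neg_mem' := by
        intro c hc
        change v⁻¹ * E (-c) * v ∈ P t l E
        have h : v⁻¹ * E (-c) * v = (v⁻¹ * E c * v)⁻¹ := by
          rw [Eneg]
          group
        rw [h]
        exact Subgroup.inv_mem _ hc }
  have hS : ∀ c, c ∈ S ↔ v⁻¹ * E c * v ∈ P t l E := fun c => Iff.rfl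
  have hx : ∀ c ∈ S, (x : L) * c ∈ S := by
    intro c hc
    rw [hS] at hc ⊢
    have e1 : v⁻¹ * t⁻¹ * v = t ^ N := by
      have h := congrArg (fun g => g⁻¹) vt
      simp only [inv_inv] at h
      rw [← h]
      group
    have h : v⁻¹ * E ((x : L) * c) * v = t ^ N * (v⁻¹ * E c * v) * (t ^ N)⁻¹ := by
      rw [← hrd.tE, ← vt, ← e1]
      group
    rw [h]
    have h2 := Subgroup.pow_mem _ tP N
    exact Subgroup.mul_mem _ (Subgroup.mul_mem _ h2 hc) (Subgroup.inv_mem _ h2)
  -- the multipliers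
  let R : AddSubgroup L :=
    { carrier := {y | ∀ c ∈ S, y * c ∈ S}
      zero_mem' := fun c _ => by rw [zero_mul]; exact S.zero_mem
      add_mem' := fun {y z} hy hz c hc => by rw [add_mul]; exact S.add_mem (hy c hc) (hz c hc)
      neg_mem' := fun {y} hy c hc => by rw [neg_mul]; exact S.neg_mem (hy c hc) }
  have hR1 : (1 : L) ∈ R := fun c hc => by rw [one_mul]; exact hc
  have hRx : ∀ y ∈ R, (x : L) * y ∈ R := fun y hy c hc => by
    rw [mul_assoc]
    exact hx _ (hy c hc)
  have hR : ∀ y, y ∈ R := by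
    intro y
    exact hrd.gn R hR1 hRx y
  refine ⟨{ carrier := S, add_mem' := fun h1 h2 => S.add_mem h1 h2, zero_mem' := S.zero_mem,
            smul_mem' := fun y c hc => hR y c hc }, fun c => (hK c).symm, ?_, ?_⟩
  · intro c hc
    change v⁻¹ * E (σ c) * v ∈ P t l E
    have hc' : v⁻¹ * E c * v ∈ P t l E := hc
    have lv' : l * v = v * l := lv
    have h : v⁻¹ * E (σ c) * v = l⁻¹ * (v⁻¹ * E c * v) * l := by
      rw [← hrd.lE]
      calc v⁻¹ * (l⁻¹ * E c * l) * v = (l * v)⁻¹ * E c * (l * v) := by group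
        _ = (v * l)⁻¹ * E c * (v * l) := by rw [lv]
        _ = _ := by group
    rw [h]
    exact Subgroup.mul_mem _ (Subgroup.mul_mem _ (Subgroup.inv_mem _ lP) hc') lP
  · intro c hc
    change v⁻¹ * E (σ.symm c) * v ∈ P t l E
    have hc' : v⁻¹ * E c * v ∈ P t l E := hc
    have h1 : E (σ.symm c) = l * E c * l⁻¹ := by
      have h2 := hrd.lE (σ.symm c)
      rw [RingEquiv.apply_symm_apply] at h2
      rw [← h2]
      group
    have lv2 : v⁻¹ * l = l * v⁻¹ := by
      rw [inv_mul_eq_iff_eq_mul, ← mul_assoc, ← lv, mul_assoc, mul_inv_cancel, mul_one]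
    have h : v⁻¹ * E (σ.symm c) * v = l * (v⁻¹ * E c * v) * l⁻¹ := by
      rw [h1]
      calc v⁻¹ * (l * E c * l⁻¹) * v = (v⁻¹ * l) * E c * (v⁻¹ * l)⁻¹ := by group
        _ = (l * v⁻¹) * E c * (l * v⁻¹)⁻¹ := by rw [lv2]
        _ = _ := by group
    rw [h]
    exact Subgroup.mul_mem _ (Subgroup.mul_mem _ lP hc') (Subgroup.inv_mem _ lP)

end Pool.Agent.Helper37.AX
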